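import Pool.Agent.KS6_58.SP.C

/-!
# MP_07ff6b_an : random sampling of continuous frames with stable phase retrieval

For a continuous Parseval frame `(x_t)` of an `n`-dimensional Hilbert space over a probability
space, `m ≥ D n` independent random points `t_1, …, t_m` give, with probability at least
`1 - exp(-c m)`, a rescaled family `(m^{-1/2} x_{t_j})` that does stable phase retrieval, even
after any `θ m` of its vectors are deleted.  No bound on `sup ‖x_t‖` is needed: the condition is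
that the distance in `H` is controlled by the mean of the differences of the moduli, and this
condition is also necessary.  The hypotheses of the question imply it.
-/

open MeasureTheory

universe u v w

namespace Pool.Agent.Results.MP_07ff6b_an.RandomSampling

/-- The family `(x_t)` in `H`, indexed by the probability space `(Ω, μ)`, is a continuous Parseval
frame: `t ↦ ⟨v, x_t⟩` is measurable and `∫ |⟨v, x_t⟩|² dμ(t) = ‖v‖²` for each `v`.
(Mathlib's `inner` is conjugate-linear in the first variable, so the scalar product `⟨v, x_t⟩`,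
linear in `v`, is `inner 𝕜 (x t) v`.) -/
structure IsParsevalFrame (𝕜 : Type*) [RCLike 𝕜] {H : Type*} [NormedAddCommGroup H]
    [InnerProductSpace 𝕜 H] {Ω : Type*} [MeasurableSpace Ω] (μ : Measure Ω) (x : Ω → H) :
    Prop where
  measurable : ∀ v : H, Measurable fun t => inner 𝕜 (x t) v
  parseval : ∀ v : H, ∫⁻ t, ‖inner 𝕜 (x t) v‖ₑ ^ 2 ∂μ = ENNReal.ofReal (‖v‖ ^ 2)

/-- The analysis operator `Θ v = (⟨v, x_t⟩)_t`. -/
def analysis (𝕜 : Type*) [RCLike 𝕜] {H : Type*} [NormedAddCommGroup H]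
    [InnerProductSpace 𝕜 H] {Ω : Type*} (x : Ω → H) (v : H) : Ω → 𝕜 :=
  fun t => inner 𝕜 (x t) v

/-- `C`-stable phase retrieval in `L_p(μ)` of a set `E` of functions:
`min_{|c| = 1} ‖f - c g‖_{L_p} ≤ C ‖|f| - |g|‖_{L_p}` for all `f, g ∈ E`. -/
def StablePR {𝕜 : Type*} [RCLike 𝕜] {Ω : Type*} [MeasurableSpace Ω] (μ : Measure Ω)
    (p : ENNReal) (C : ℝ) (E : Set (Ω → 𝕜)) : Prop :=
  ∀ f ∈ E, ∀ g ∈ E, ∃ c : 𝕜, ‖c‖ = 1 ∧
    eLpNorm (fun t => f t - c * g t) p μ ≤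
      ENNReal.ofReal C * eLpNorm (fun t => ‖f t‖ - ‖g t‖) p μ

/-- The distance in `H` is controlled by the mean of the differences of the moduli:
`min_{|c| = 1} ‖v - c w‖ ≤ C ∫ ||⟨v, x_t⟩| - |⟨w, x_t⟩|| dμ(t)`. -/
def MeanModulus (𝕜 : Type*) [RCLike 𝕜] {H : Type*} [NormedAddCommGroup H]
    [InnerProductSpace 𝕜 H] {Ω : Type*} [MeasurableSpace Ω] (μ : Measure Ω) (x : Ω → H)
    (C : ℝ) : Prop :=
  ∀ v w : H, ∃ c : 𝕜, ‖c‖ = 1 ∧
    ‖v - c • w‖ ≤ C * ∫ t, |‖inner 𝕜 (x t) v‖ - ‖inner 𝕜 (x t) w‖| ∂μ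

/-- The rescaled sample `(m^{-1/2} x_{t_j})_j`. -/
noncomputable def sampled (𝕜 : Type*) [RCLike 𝕜] {H : Type*} [NormedAddCommGroup H]
    [InnerProductSpace 𝕜 H] {Ω : Type*} (x : Ω → H) {m : ℕ} (t : Fin m → Ω) : Fin m → H :=
  fun j => (((√m)⁻¹ : ℝ) : 𝕜) • x (t j)

/-- `κ`-stable phase retrieval of the finite family `(y_j)_{j ∈ J}` in `H`. -/
def FiniteStablePR (𝕜 : Type*) [RCLike 𝕜] {H : Type*} [NormedAddCommGroup H]
    [InnerProductSpace 𝕜 H] (κ : ℝ) {m : ℕ} (J : Finset (Fin m)) (y : Fin m → H) : Prop :=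
  ∀ v w : H, ∃ c : 𝕜, ‖c‖ = 1 ∧
    ‖v - c • w‖ ≤ κ * √(∑ j ∈ J, (‖inner 𝕜 (y j) v‖ - ‖inner 𝕜 (y j) w‖) ^ 2)

/-- The averaged `ℓ_1` form (for `y = sampled 𝕜 x t` the right side is `κ` times
`m⁻¹ ∑_{j ∈ J} ||⟨v, x_{t_j}⟩| - |⟨w, x_{t_j}⟩||`); it implies the previous property. -/
def FiniteStablePR1 (𝕜 : Type*) [RCLike 𝕜] {H : Type*} [NormedAddCommGroup H]
    [InnerProductSpace 𝕜 H] (κ : ℝ) {m : ℕ} (J : Finset (Fin m)) (y : Fin m → H) : Prop :=
  ∀ v w : H, ∃ c : 𝕜, ‖c‖ = 1 ∧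
    ‖v - c • w‖ ≤ κ * ((√m)⁻¹ * ∑ j ∈ J, |‖inner 𝕜 (y j) v‖ - ‖inner 𝕜 (y j) w‖|)

/-- For every set `J` of at least `(1 - θ) m` indices the subfamily `(y_j)_{j ∈ J}` spans `H` and
has `κ`-stable phase retrieval, also in the averaged `ℓ_1` form. -/
def Robust (𝕜 : Type*) [RCLike 𝕜] {H : Type*} [NormedAddCommGroup H]
    [InnerProductSpace 𝕜 H] (κ θ : ℝ) {m : ℕ} (y : Fin m → H) : Prop :=
  ∀ J : Finset (Fin m), (1 - θ) * m ≤ J.card →
    Submodule.span 𝕜 (y '' J) = ⊤ ∧ FiniteStablePR 𝕜 κ J y ∧ FiniteStablePR1 𝕜 κ J y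

section Conversions

open Pool.Agent.KS6_58.SP

variable {𝕜 : Type u} [RCLike 𝕜] {H : Type v} [NormedAddCommGroup H] [InnerProductSpace 𝕜 H]
  {Ω : Type w} [MeasurableSpace Ω] {μ : Measure Ω} {x : Ω → H}

lemma frame_integrable (h : IsParsevalFrame 𝕜 μ x) (v : H) :
    Integrable (fun t => ‖inner 𝕜 (x t) v‖ ^ 2) μ := by
  refine ⟨((h.measurable v).norm.pow_const 2).aestronglyMeasurable, ?_⟩
  have h1 : ∀ t, ‖‖inner 𝕜 (x t) v‖ ^ 2‖ₑ = ‖inner 𝕜 (x t) v‖ₑ ^ 2 := by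
    intro t
    rw [enorm_pow, enorm_norm]
  rw [HasFiniteIntegral]
  simp only [h1, h.parseval v]
  exact ENNReal.ofReal_lt_top

lemma frame_integral (h : IsParsevalFrame 𝕜 μ x) (v : H) :
    ∫ t, ‖inner 𝕜 (x t) v‖ ^ 2 ∂μ = ‖v‖ ^ 2 := by
  have h2 := ofReal_integral_eq_lintegral_ofReal (frame_integrable h v)
    (Filter.Eventually.of_forall fun t => by positivity)
  have h3 : ∀ t, ENNReal.ofReal (‖inner 𝕜 (x t) v‖ ^ 2) = ‖inner 𝕜 (x t) v‖ₑ ^ 2 := by
    intro t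
    rw [ENNReal.ofReal_pow (norm_nonneg _), ofReal_norm]
  simp only [h3] at h2
  rw [h.parseval v, ENNReal.ofReal_eq_ofReal_iff (integral_nonneg fun t => by positivity)
    (by positivity)] at h2
  exact h2

omit [MeasurableSpace Ω] in
lemma analysis_sub (c : 𝕜) (v w : H) : (fun t => analysis 𝕜 x v t - c * analysis 𝕜 x w t) =
    fun t => inner 𝕜 (x t) (v - c • w) := by
  funext t
  simp only [analysis, inner_sub_right, inner_smul_right]

variable [IsProbabilityMeasure μ]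

lemma norm_one_left (h : IsParsevalFrame 𝕜 μ x) (c : 𝕜) (v w : H) :
    eLpNorm (fun t => analysis 𝕜 x v t - c * analysis 𝕜 x w t) 1 μ =
      ENNReal.ofReal (∫ t, ‖inner 𝕜 (x t) (v - c • w)‖ ∂μ) := by
  rw [analysis_sub, eLpNorm_one_eq_lintegral_enorm, ← ofReal_integral_norm_eq_lintegral_enorm]
  refine (integrable_norm_iff ?_).1 (int_norm (μ := μ) h.measurable (frame_integrable h) _)
  exact (h.measurable _).aestronglyMeasurable

lemma norm_one_right (h : IsParsevalFrame 𝕜 μ x) (v w : H) :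
    eLpNorm (fun t => ‖analysis 𝕜 x v t‖ - ‖analysis 𝕜 x w t‖) 1 μ =
      ENNReal.ofReal (∫ t, |‖inner 𝕜 (x t) v‖ - ‖inner 𝕜 (x t) w‖| ∂μ) := by
  rw [eLpNorm_one_eq_lintegral_enorm, ← ofReal_integral_norm_eq_lintegral_enorm]
  · rfl
  · exact (int_norm h.measurable (frame_integrable h) v).sub
      (int_norm h.measurable (frame_integrable h) w)

lemma stable_one_iff (h : IsParsevalFrame 𝕜 μ x) {C : ℝ} (hC : 0 < C) :
    StablePR μ 1 C (Set.range (analysis 𝕜 x)) ↔ ∀ v w : H, ∃ c : 𝕜, ‖c‖ = 1 ∧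
      ∫ t, ‖inner 𝕜 (x t) (v - c • w)‖ ∂μ ≤
        C * ∫ t, |‖inner 𝕜 (x t) v‖ - ‖inner 𝕜 (x t) w‖| ∂μ := by
  have key : ∀ (c : 𝕜) (v w : H),
      (eLpNorm (fun t => analysis 𝕜 x v t - c * analysis 𝕜 x w t) 1 μ ≤
        ENNReal.ofReal C * eLpNorm (fun t => ‖analysis 𝕜 x v t‖ - ‖analysis 𝕜 x w t‖) 1 μ) ↔
      ∫ t, ‖inner 𝕜 (x t) (v - c • w)‖ ∂μ ≤
        C * ∫ t, |‖inner 𝕜 (x t) v‖ - ‖inner 𝕜 (x t) w‖| ∂μ := by
    intro c v w
    rw [norm_one_left h, norm_one_right h, ← ENNReal.ofReal_mul hC.le, ENNReal.ofReal_le_ofReal_iff]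
    exact mul_nonneg hC.le (integral_nonneg fun t => abs_nonneg _)
  constructor
  · intro hs v w
    obtain ⟨c, hc, hle⟩ := hs _ ⟨v, rfl⟩ _ ⟨w, rfl⟩
    exact ⟨c, hc, (key c v w).1 hle⟩
  · rintro hs _ ⟨v, rfl⟩ _ ⟨w, rfl⟩
    obtain ⟨c, hc, hle⟩ := hs v w
    exact ⟨c, hc, (key c v w).2 hle⟩

omit [IsProbabilityMeasure μ] in
lemma stable_two (h : IsParsevalFrame 𝕜 μ x) {C : ℝ} (hC : 0 < C)
    (hs : StablePR μ 2 C (Set.range (analysis 𝕜 x))) (v w : H) : ∃ c : 𝕜, ‖c‖ = 1 ∧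
      ‖v - c • w‖ ^ 2 ≤ C ^ 2 * ∫ t, (‖inner 𝕜 (x t) v‖ - ‖inner 𝕜 (x t) w‖) ^ 2 ∂μ := by
  obtain ⟨c, hc, hle⟩ := hs _ ⟨v, rfl⟩ _ ⟨w, rfl⟩
  refine ⟨c, hc, ?_⟩
  rw [analysis_sub] at hle
  have m1 : MemLp (fun t => (inner 𝕜 (x t) (v - c • w) : 𝕜)) 2 μ :=
    (memLp_two_iff_integrable_sq_norm (h.measurable _).aestronglyMeasurable).2
      (frame_integrable h _)
  have m2 : MemLp (fun t => ‖analysis 𝕜 x v t‖ - ‖analysis 𝕜 x w t‖) 2 μ := by
    refine (memLp_two_iff_integrable_sq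
      ((h.measurable v).norm.sub (h.measurable w).norm).aestronglyMeasurable).2 ?_
    exact int_sq h.measurable (frame_integrable h) v w
  rw [m1.eLpNorm_eq_integral_rpow_norm (by norm_num) (by norm_num),
    m2.eLpNorm_eq_integral_rpow_norm (by norm_num) (by norm_num),
    ← ENNReal.ofReal_mul hC.le, ENNReal.ofReal_le_ofReal_iff (by positivity)] at hle
  simp only [ENNReal.toReal_ofNat, Real.rpow_ofNat, Real.norm_eq_abs, sq_abs] at hle
  rw [frame_integral h, show ((2:ℝ)⁻¹) = 1 / 2 by norm_num, ← Real.sqrt_eq_rpow,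
    ← Real.sqrt_eq_rpow, Real.sqrt_sq (norm_nonneg _)] at hle
  have hle2 := pow_le_pow_left₀ (norm_nonneg _) hle 2
  rw [mul_pow, Real.sq_sqrt (integral_nonneg fun t => sq_nonneg _)] at hle2
  exact hle2

/-- The `L_1` norm is at most the norm. -/
lemma l1_le (h : IsParsevalFrame 𝕜 μ x) (v : H) : ∫ t, ‖inner 𝕜 (x t) v‖ ∂μ ≤ ‖v‖ := by
  rcases (norm_nonneg v).eq_or_lt with h0 | h0
  · have hv : v = 0 := norm_eq_zero.1 h0.symm
    simp [hv]
  · have h1 : ∀ t, ‖inner 𝕜 (x t) v‖ ≤ ‖inner 𝕜 (x t) v‖ ^ 2 / (2 * ‖v‖) + ‖v‖ / 2 := by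
      intro t
      have e : ‖inner 𝕜 (x t) v‖ ^ 2 / (2 * ‖v‖) + ‖v‖ / 2 - ‖inner 𝕜 (x t) v‖ =
          (‖inner 𝕜 (x t) v‖ - ‖v‖) ^ 2 / (2 * ‖v‖) := by
        field_simp
        ring
      have : 0 ≤ (‖inner 𝕜 (x t) v‖ - ‖v‖) ^ 2 / (2 * ‖v‖) := by positivity
      linarith
    have h2 := integral_mono (int_norm (μ := μ) h.measurable (frame_integrable h) v)
      (((frame_integrable h v).div_const (2 * ‖v‖)).add (integrable_const (‖v‖ / 2))) h1
    simp only [Pi.add_apply] at h2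
    rw [integral_add ((frame_integrable h v).div_const _) (integrable_const _), integral_div,
      frame_integral h, integral_const, probReal_univ, one_smul] at h2
    refine h2.trans (le_of_eq ?_)
    field_simp
    norm_num

omit [MeasurableSpace Ω] in
lemma span_of_stable {κ : ℝ} {m : ℕ} {J : Finset (Fin m)} {y : Fin m → H}
    [FiniteDimensional 𝕜 H] (h : FiniteStablePR 𝕜 κ J y) : Submodule.span 𝕜 (y '' J) = ⊤ := by
  rw [← Submodule.orthogonal_eq_bot_iff, Submodule.eq_bot_iff]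
  intro v hv
  rw [Submodule.mem_orthogonal] at hv
  obtain ⟨c, _, hle⟩ := h v 0
  have hz : ∀ j ∈ J, inner 𝕜 (y j) v = 0 := fun j hj =>
    hv _ (Submodule.subset_span ⟨j, hj, rfl⟩)
  have hs : ∑ j ∈ J, (‖inner 𝕜 (y j) v‖ - ‖inner 𝕜 (y j) (0:H)‖) ^ 2 = 0 :=
    Finset.sum_eq_zero fun j hj => by rw [hz j hj]; simp
  rw [hs] at hle
  simp only [smul_zero, sub_zero, Real.sqrt_zero, mul_zero] at hle
  exact norm_le_zero_iff.1 hle

omit [MeasurableSpace Ω] in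
lemma robust_subsingleton [FiniteDimensional 𝕜 H] (hfin : Module.finrank 𝕜 H = 0) {κ θ : ℝ}
    (hκ : 0 < κ) {m : ℕ} (y : Fin m → H) : Robust 𝕜 κ θ y := by
  have hsub : Subsingleton H := Module.finrank_zero_iff.1 hfin
  intro J _
  refine ⟨Subsingleton.elim _ _, fun v w => ⟨1, by simp, ?_⟩, fun v w => ⟨1, by simp, ?_⟩⟩
  · rw [Subsingleton.elim v w, one_smul, sub_self, norm_zero]
    positivity
  · rw [Subsingleton.elim v w, one_smul, sub_self, norm_zero]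
    positivity

end Conversions

open Pool.Agent.KS6_58.SP

/-- The sampling theorem. -/
lemma sampling {𝕜 : Type u} [RCLike 𝕜] {H : Type v} [NormedAddCommGroup H]
    [InnerProductSpace 𝕜 H] [FiniteDimensional 𝕜 H] {Ω : Type w} [MeasurableSpace Ω]
    {μ : Measure Ω} [IsProbabilityMeasure μ] {x : Ω → H} (hfr : IsParsevalFrame 𝕜 μ x) {C : ℝ}
    (hC : 0 < C) (hb : MeanModulus 𝕜 μ x C) {m : ℕ}
    (hm : 2 ^ 18 * C ^ 4 * Module.finrank 𝕜 H ≤ m) :
    (Measure.pi fun _ : Fin m => μ)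
      {t | ¬ Robust 𝕜 (16 * C) (1 / (8 * C ^ 2)) (sampled 𝕜 x t)} ≤
      ENNReal.ofReal (Real.exp (-(m / (8 * C ^ 4)))) := by
  rcases Nat.eq_zero_or_pos (Module.finrank 𝕜 H) with h0 | hn
  · have : {t : Fin m → Ω | ¬ Robust 𝕜 (16 * C) (1 / (8 * C ^ 2)) (sampled 𝕜 x t)} = ∅ := by
      rw [Set.eq_empty_iff_forall_notMem]
      intro t ht
      exact ht (robust_subsingleton h0 (by positivity) _)
    rw [this, measure_empty]
    exact zero_le
  · have hnR : (0:ℝ) < Module.finrank 𝕜 H := by exact_mod_cast hn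
    have hmR : (0:ℝ) < m := lt_of_lt_of_le (by positivity) hm
    have hm0 : 0 < m := by exact_mod_cast hmR
    obtain ⟨B, hB, hBt⟩ := good_event (μ := μ) hn rfl hfr.measurable (frame_integrable hfr)
      (frame_integral hfr) hC hb hm
    refine (measure_mono ?_).trans hB
    intro t ht
    by_contra htB
    refine ht fun J hJ => ?_
    have hrob := robust (𝕜 := 𝕜) hC hm0 (hBt t htB) hJ
    have h2 : FiniteStablePR 𝕜 (16 * C) J (sampled 𝕜 x t) := fun v w => by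
      obtain ⟨c, hc, -, hle⟩ := hrob v w
      exact ⟨c, hc, hle⟩
    refine ⟨span_of_stable h2, h2, fun v w => ?_⟩
    obtain ⟨c, hc, hle, -⟩ := hrob v w
    refine ⟨c, hc, hle.trans (le_of_eq ?_)⟩
    congr 1
    have hsm : 0 < √(m:ℝ) := Real.sqrt_pos.2 hmR
    have e : ∀ j, |‖inner 𝕜 (sampled 𝕜 x t j) v‖ - ‖inner 𝕜 (sampled 𝕜 x t j) w‖| =
        (√m)⁻¹ * md 𝕜 (x (t j)) v w := by
      intro j
      rw [sampled, md, inner_smul_left, inner_smul_left, norm_mul, norm_mul, RCLike.conj_ofReal,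
        RCLike.norm_ofReal, abs_of_pos (inv_pos.2 hsm), ← mul_sub, abs_mul,
        abs_of_pos (inv_pos.2 hsm)]
    simp only [e]
    rw [← Finset.mul_sum, ← mul_assoc, ← mul_inv, Real.mul_self_sqrt hmR.le, one_div]

/-- The hypotheses of the question, with the bound for `sup ‖x_t‖` relaxed, give the mean
modulus condition. -/
lemma question_mean {𝕜 : Type u} [RCLike 𝕜] {H : Type v} [NormedAddCommGroup H]
    [InnerProductSpace 𝕜 H] [FiniteDimensional 𝕜 H] {Ω : Type w} [MeasurableSpace Ω]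
    {μ : Measure Ω} [IsProbabilityMeasure μ] {x : Ω → H} (hfr : IsParsevalFrame 𝕜 μ x) {C β : ℝ}
    (hC : 0 < C) (hβ : 0 < β) (h1 : StablePR μ 1 C (Set.range (analysis 𝕜 x)))
    (h2 : StablePR μ 2 C (Set.range (analysis 𝕜 x)))
    (hT : ∫ t in {t | β * √(Module.finrank 𝕜 H) < ‖x t‖}, ‖x t‖ ^ 2 ∂μ ≤
      Module.finrank 𝕜 H / (4 * C ^ 2)) :
    MeanModulus 𝕜 μ x (2 * C ^ 3 * (1 + 2 * β ^ 2)) := by
  rcases Nat.eq_zero_or_pos (Module.finrank 𝕜 H) with h0 | hn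
  · have hsub : Subsingleton H := Module.finrank_zero_iff.1 h0
    intro v w
    refine ⟨1, by simp, ?_⟩
    rw [Subsingleton.elim v w, one_smul, sub_self, norm_zero]
    simp
  · have hl := l1_lower_tail (𝕜 := 𝕜) (μ := μ) hn rfl hfr.measurable hβ (frame_integrable hfr)
      (frame_integral hfr) hC hT (stable_two hfr hC h2)
    intro v w
    obtain ⟨c, hc, hle⟩ := (stable_one_iff hfr hC).1 h1 v w
    refine ⟨c, hc, ?_⟩
    set δ : ℝ := 1 / (2 * C ^ 2 * (1 + 2 * β ^ 2)) with hδ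
    have hδ0 : 0 < δ := by positivity
    have h3 : δ * ‖v - c • w‖ ≤ ∫ t, ‖inner 𝕜 (x t) (v - c • w)‖ ∂μ := by
      rcases (norm_nonneg (v - c • w)).eq_or_lt with h0 | h0
      · rw [← h0, mul_zero]
        exact integral_nonneg fun t => norm_nonneg _
      · have h4 := hl (((‖v - c • w‖⁻¹ : ℝ) : 𝕜) • (v - c • w)) (by
          rw [norm_smul, RCLike.norm_ofReal, abs_of_pos (inv_pos.2 h0), inv_mul_cancel₀ h0.ne'])
        have e : ∀ t, ‖inner 𝕜 (x t) (((‖v - c • w‖⁻¹ : ℝ) : 𝕜) • (v - c • w))‖ =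
            ‖v - c • w‖⁻¹ * ‖inner 𝕜 (x t) (v - c • w)‖ := by
          intro t
          rw [inner_smul_right, norm_mul, RCLike.norm_ofReal, abs_of_pos (inv_pos.2 h0)]
        simp only [e] at h4
        rw [integral_const_mul, inv_mul_eq_div, le_div_iff₀ h0] at h4
        exact h4
    have h5 : ‖v - c • w‖ = δ⁻¹ * (δ * ‖v - c • w‖) := by field_simp
    have h6 : (2 * C ^ 3 * (1 + 2 * β ^ 2)) = δ⁻¹ * C := by
      rw [hδ]
      field_simp
    rw [h5, h6, mul_assoc]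
    exact mul_le_mul_of_nonneg_left (h3.trans hle) (by positivity)

theorem result :
    -- (A) general continuous Parseval frames
    (∀ (𝕜 : Type u) [RCLike 𝕜] (H : Type v) [NormedAddCommGroup H] [InnerProductSpace 𝕜 H]
        [FiniteDimensional 𝕜 H] (Ω : Type w) [MeasurableSpace Ω] (μ : Measure Ω)
        [IsProbabilityMeasure μ] (x : Ω → H), IsParsevalFrame 𝕜 μ x → ∀ C : ℝ, 0 < C →
      -- sampling: every `m ≥ 2¹⁸ C⁴ n` works, with failure probability `≤ exp(-m / (8 C⁴))`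
      (MeanModulus 𝕜 μ x C → ∀ m : ℕ, 2 ^ 18 * C ^ 4 * Module.finrank 𝕜 H ≤ m →
        (Measure.pi fun _ : Fin m => μ)
          {t | ¬ Robust 𝕜 (16 * C) (1 / (8 * C ^ 2)) (sampled 𝕜 x t)} ≤
          ENNReal.ofReal (Real.exp (-(m / (8 * C ^ 4))))) ∧
      -- necessity of the mean modulus condition
      (∀ (κ c : ℝ) (m : ℕ), 0 < κ → 0 < c → 0 < m →
        (Measure.pi fun _ : Fin m => μ)
          {t | ¬ FiniteStablePR 𝕜 κ Finset.univ (sampled 𝕜 x t)} ≤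
          ENNReal.ofReal (Real.exp (-(c * m))) →
        MeanModulus 𝕜 μ x (κ / (1 - Real.exp (-c)))) ∧
      -- the condition means: stable phase retrieval in `L_1`, and equivalence of the two norms
      (MeanModulus 𝕜 μ x C → StablePR μ 1 C (Set.range (analysis 𝕜 x)) ∧
        ∀ v : H, ‖v‖ ≤ C * ∫ t, ‖inner 𝕜 (x t) v‖ ∂μ) ∧
      (∀ δ : ℝ, 0 < δ → StablePR μ 1 C (Set.range (analysis 𝕜 x)) →
        (∀ v : H, δ * ‖v‖ ≤ ∫ t, ‖inner 𝕜 (x t) v‖ ∂μ) → MeanModulus 𝕜 μ x (C / δ)) ∧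
      -- the hypotheses of the question imply it; the bound `‖x_t‖ ≤ β √n` is only needed
      -- outside a set that carries a small part of `∫ ‖x_t‖² = n`
      (∀ β : ℝ, 0 < β → StablePR μ 1 C (Set.range (analysis 𝕜 x)) →
        StablePR μ 2 C (Set.range (analysis 𝕜 x)) →
        ∫ t in {t | β * √(Module.finrank 𝕜 H) < ‖x t‖}, ‖x t‖ ^ 2 ∂μ ≤
          Module.finrank 𝕜 H / (4 * C ^ 2) →
        MeanModulus 𝕜 μ x (2 * C ^ 3 * (1 + 2 * β ^ 2)))) ∧
    -- (B) the question, for every `m ≥ D n`, random points and erasures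
    (∀ C β : ℝ, 0 < C → 0 < β → ∃ D κ θ c : ℝ, 0 < D ∧ 0 < κ ∧ 0 < θ ∧ 0 < c ∧
      ∀ n m : ℕ, D * n ≤ m →
      ∀ (𝕜 : Type u) [RCLike 𝕜] (H : Type v) [NormedAddCommGroup H] [InnerProductSpace 𝕜 H]
        [FiniteDimensional 𝕜 H], Module.finrank 𝕜 H = n →
      ∀ (Ω : Type w) [MeasurableSpace Ω] (μ : Measure Ω) [IsProbabilityMeasure μ] (x : Ω → H),
        IsParsevalFrame 𝕜 μ x →
        StablePR μ 1 C (Set.range (analysis 𝕜 x)) →
        StablePR μ 2 C (Set.range (analysis 𝕜 x)) →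
        (∀ t, ‖x t‖ ≤ β * √n) →
        (Measure.pi fun _ : Fin m => μ) {t | ¬ Robust 𝕜 κ θ (sampled 𝕜 x t)} ≤
          ENNReal.ofReal (Real.exp (-(c * m))) ∧
        ∃ t : Fin m → Ω, Robust 𝕜 κ θ (sampled 𝕜 x t)) ∧
    -- (C) the question as posed
    (∀ C β : ℝ, 0 < C → 0 < β → ∃ D κ : ℝ, 0 < D ∧ 0 < κ ∧ ∀ n : ℕ, ∃ m : ℕ, (m : ℝ) ≤ D * n ∧
      ∀ (𝕜 : Type u) [RCLike 𝕜] (H : Type v) [NormedAddCommGroup H] [InnerProductSpace 𝕜 H]
        [FiniteDimensional 𝕜 H], Module.finrank 𝕜 H = n →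
      ∀ (Ω : Type w) [MeasurableSpace Ω] (μ : Measure Ω) [IsProbabilityMeasure μ] (x : Ω → H),
        IsParsevalFrame 𝕜 μ x →
        StablePR μ 1 C (Set.range (analysis 𝕜 x)) →
        StablePR μ 2 C (Set.range (analysis 𝕜 x)) →
        (∀ t, ‖x t‖ ≤ β * √n) →
        ∃ t : Fin m → Ω,
          Submodule.span 𝕜 (Set.range (sampled 𝕜 x t)) = ⊤ ∧
          FiniteStablePR 𝕜 κ Finset.univ (sampled 𝕜 x t)) := by
  have hB : ∀ C β : ℝ, 0 < C → 0 < β → ∃ D κ θ c : ℝ, 0 < D ∧ 0 < κ ∧ 0 < θ ∧ 0 < c ∧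
      ∀ n m : ℕ, D * n ≤ m →
      ∀ (𝕜 : Type u) [RCLike 𝕜] (H : Type v) [NormedAddCommGroup H] [InnerProductSpace 𝕜 H]
        [FiniteDimensional 𝕜 H], Module.finrank 𝕜 H = n →
      ∀ (Ω : Type w) [MeasurableSpace Ω] (μ : Measure Ω) [IsProbabilityMeasure μ] (x : Ω → H),
        IsParsevalFrame 𝕜 μ x →
        StablePR μ 1 C (Set.range (analysis 𝕜 x)) →
        StablePR μ 2 C (Set.range (analysis 𝕜 x)) →
        (∀ t, ‖x t‖ ≤ β * √n) →
        (Measure.pi fun _ : Fin m => μ) {t | ¬ Robust 𝕜 κ θ (sampled 𝕜 x t)} ≤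
          ENNReal.ofReal (Real.exp (-(c * m))) ∧
        ∃ t : Fin m → Ω, Robust 𝕜 κ θ (sampled 𝕜 x t) := by
    intro C β hC hβ
    set C' : ℝ := 2 * C ^ 3 * (1 + 2 * β ^ 2) with hC'
    have hC'0 : 0 < C' := by positivity
    refine ⟨2 ^ 18 * C' ^ 4, 16 * C', 1 / (8 * C' ^ 2), 1 / (8 * C' ^ 4), by positivity,
      by positivity, by positivity, by positivity, ?_⟩
    intro n m hm 𝕜 _ H _ _ _ hfin Ω _ μ _ x hfr h1 h2 hR
    subst hfin
    have hT : ∫ t in {t | β * √(Module.finrank 𝕜 H) < ‖x t‖}, ‖x t‖ ^ 2 ∂μ ≤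
        Module.finrank 𝕜 H / (4 * C ^ 2) := by
      have : {t | β * √(Module.finrank 𝕜 H) < ‖x t‖} = ∅ := by
        rw [Set.eq_empty_iff_forall_notMem]
        intro t ht
        exact absurd (hR t) (not_le.2 ht)
      rw [this, Measure.restrict_empty, integral_zero_measure]
      positivity
    have hmm := question_mean hfr hC hβ h1 h2 hT
    have hbd := sampling hfr hC'0 hmm hm
    have e1 : -((m:ℝ) / (8 * C' ^ 4)) = -(1 / (8 * C' ^ 4) * m) := by ring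
    rw [e1] at hbd
    refine ⟨hbd, ?_⟩
    rcases Nat.eq_zero_or_pos (Module.finrank 𝕜 H) with h0 | hn
    · have : Nonempty Ω := nonempty_of_isProbabilityMeasure μ
      exact ⟨fun _ => Classical.arbitrary Ω, robust_subsingleton h0 (by positivity) _⟩
    · by_contra hcon
      push Not at hcon
      have hall : {t : Fin m → Ω | ¬ Robust 𝕜 (16 * C') (1 / (8 * C' ^ 2)) (sampled 𝕜 x t)} =
          Set.univ := by
        ext t
        simpa using hcon t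
      rw [hall, measure_univ] at hbd
      have hnR : (0:ℝ) < Module.finrank 𝕜 H := by exact_mod_cast hn
      have hmR : (0:ℝ) < m := lt_of_lt_of_le (by positivity) hm
      have hlt : Real.exp (-(1 / (8 * C' ^ 4) * m)) < 1 := by
        have h5 : 0 < 1 / (8 * C' ^ 4) * (m:ℝ) := by positivity
        exact (Real.exp_lt_exp.2 (neg_lt_zero.2 h5)).trans_eq Real.exp_zero
      have h3 : ENNReal.ofReal (Real.exp (-(1 / (8 * C' ^ 4) * m))) < 1 := by
        rw [← ENNReal.ofReal_one]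
        exact (ENNReal.ofReal_lt_ofReal_iff one_pos).2 hlt
      exact absurd hbd (not_le.2 h3)
  refine ⟨?_, hB, ?_⟩
  · intro 𝕜 _ H _ _ _ Ω _ μ _ x hfr C hC
    refine ⟨fun hb m hm => sampling hfr hC hb hm, ?_, ?_, ?_, ?_⟩
    · intro κ c m hκ hc hm h
      exact converse (𝕜 := 𝕜) hfr.measurable (frame_integrable hfr) hκ hc hm h
    · intro hb
      refine ⟨(stable_one_iff hfr hC).2 fun v w => ?_, fun v => ?_⟩
      · obtain ⟨c, hc, hle⟩ := hb v w
        exact ⟨c, hc, (l1_le hfr _).trans hle⟩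
      · obtain ⟨c, hc, hle⟩ := hb v 0
        simpa using hle
    · intro δ hδ h1 h2 v w
      obtain ⟨c, hc, hle⟩ := (stable_one_iff hfr hC).1 h1 v w
      refine ⟨c, hc, ?_⟩
      have h3 := (h2 (v - c • w)).trans hle
      rw [div_mul_eq_mul_div, le_div_iff₀ hδ]
      linarith
    · intro β hβ h1 h2 hT
      exact question_mean hfr hC hβ h1 h2 hT
  · intro C β hC hβ
    obtain ⟨D, κ, θ, c, hD, hκ, hθ, hc, h⟩ := hB C β hC hβ
    refine ⟨D + 1, κ, by positivity, hκ, fun n => ⟨⌈D * n⌉₊, ?_, ?_⟩⟩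
    · rcases Nat.eq_zero_or_pos n with h0 | hn
      · simp [h0]
      · have h1 := (Nat.ceil_lt_add_one (a := D * n) (by positivity)).le
        have h2 : (1:ℝ) ≤ n := by exact_mod_cast hn
        linarith
    · intro 𝕜 _ H _ _ _ hfin Ω _ μ _ x hfr h1 h2 hR
      obtain ⟨-, t, ht⟩ := h n ⌈D * n⌉₊ (Nat.le_ceil _) 𝕜 H hfin Ω μ x hfr h1 h2 hR
      obtain ⟨h3, h4, -⟩ := ht Finset.univ (by
        rw [Finset.card_univ, Fintype.card_fin]
        have : 0 ≤ θ * (⌈D * n⌉₊ : ℝ) := by positivity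
        linarith)
      refine ⟨t, ?_, h4⟩
      rw [Finset.coe_univ, Set.image_univ] at h3
      exact h3

end Pool.Agent.Results.MP_07ff6b_an.RandomSampling
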